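import Mathlib
import Pool.Agent.Hex.Main

/-!
# MP_b7794d_co — a disjoint subfamily covering the fraction `a / (2 √3 d²)` of the union
-/

namespace Pool.Agent.Results.MP_b7794d_co.HexagonalBound

open MeasureTheory

/-- Part 1: every finite family of compact plane sets of area `a` and diameter at most `d > 0` has
a subfamily of pairwise disjoint members which covers area at least `a / (2 √3 d²)` times the area
of the union of the whole family (neither convexity nor equal perimeters are needed).

Part 2: how this fraction compares with the two fractions of the problem,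
`μ = a / (π d²)` (asked for) and `λ = a / (a + p d + π d²)` (known), for `p ≥ 2 d`:
it is at least `0.9 μ` and at least `1.48 λ`. -/
theorem result :
    (∀ (n : ℕ) (K : Fin n → Set (EuclideanSpace ℝ (Fin 2))) (a d : ℝ), 0 < d →
      (∀ i, IsCompact (K i) ∧ (volume (K i)).toReal = a ∧ Metric.diam (K i) ≤ d) →
      ∃ S : Finset (Fin n),
        (∀ i ∈ S, ∀ j ∈ S, i ≠ j → Disjoint (K i) (K j)) ∧
        a / (2 * Real.sqrt 3 * d ^ 2) * (volume (⋃ i, K i)).toReal ≤
          (volume (⋃ i ∈ S, K i)).toReal) ∧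
    (∀ a p d : ℝ, 0 < a → 0 < d → 2 * d ≤ p →
      0.9 * (a / (Real.pi * d ^ 2)) ≤ a / (2 * Real.sqrt 3 * d ^ 2) ∧
      1.48 * (a / (a + p * d + Real.pi * d ^ 2)) ≤ a / (2 * Real.sqrt 3 * d ^ 2)) := by
  refine ⟨?_, ?_⟩
  · intro n K a d hd h
    obtain ⟨S, hS, hle⟩ := Pool.Agent.Hex.main K hd (fun i => (h i).1) (fun i => (h i).2.1)
      (fun i => (h i).2.2)
    exact ⟨S, fun i hi j hj hij => hS hi hj hij, hle⟩
  · intro a p d ha hd hp
    have h3 : Real.sqrt 3 ^ 2 = 3 := Real.sq_sqrt (by norm_num)
    have hs : 0 < Real.sqrt 3 := Real.sqrt_pos.mpr (by norm_num)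
    have hs2 : Real.sqrt 3 < 1.7321 := by
      rw [Real.sqrt_lt' (by norm_num)]; norm_num
    have hpi := Real.pi_gt_d2
    have hd2 : 0 < d ^ 2 := by positivity
    constructor
    · rw [mul_div_assoc', div_le_div_iff₀ (by positivity) (by positivity)]
      have : 0.9 * (2 * Real.sqrt 3) ≤ Real.pi := by linarith
      nlinarith [mul_pos ha hd2, mul_le_mul_of_nonneg_left this (mul_pos ha hd2).le]
    · have hpos : 0 < a + p * d + Real.pi * d ^ 2 := by
        have : 0 < p * d := mul_pos (by linarith) hd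
        positivity
      rw [mul_div_assoc', div_le_div_iff₀ hpos (by positivity)]
      have h1 : 1.48 * (2 * Real.sqrt 3) ≤ 2 + Real.pi := by linarith
      have h2 : (2 + Real.pi) * d ^ 2 ≤ a + p * d + Real.pi * d ^ 2 := by nlinarith
      have h4 : 1.48 * (2 * Real.sqrt 3) * d ^ 2 ≤ a + p * d + Real.pi * d ^ 2 :=
        (mul_le_mul_of_nonneg_right h1 hd2.le).trans h2
      nlinarith [mul_le_mul_of_nonneg_left h4 ha.le]

end Pool.Agent.Results.MP_b7794d_co.HexagonalBound
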